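import Pool.Agent.THS.StmtsB

/-!
# Row DBD of the squad THS (trivial determinant bounds)
-/

set_option autoImplicit false

namespace Pool.Agent.THS.H60

/-- **Row DBD** -/
theorem dbd : DbdStatement := by
  intro K _ v r M b hb
  refine ⟨?_, ?_⟩
  · have h := Matrix.det_le (abv := v) (x := b) (fun i j => hb i j)
    rw [Fintype.card_fin, nsmul_eq_mul] at h
    exact h
  · intro hna
    rw [Matrix.det_apply]
    obtain ⟨σ, -, hσ⟩ := IsNonarchimedean.finset_image_add_of_nonempty hna
      (fun σ : Equiv.Perm (Fin r) => Equiv.Perm.sign σ • ∏ i, M (σ i) i)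
      (t := Finset.univ) ⟨1, Finset.mem_univ _⟩
    refine hσ.trans ?_
    have h1 : v (Equiv.Perm.sign σ • ∏ i, M (σ i) i) = ∏ i, v (M (σ i) i) := by
      rcases Int.units_eq_one_or (Equiv.Perm.sign σ) with h | h
      · rw [h, one_smul, map_prod]
      · rw [h, Units.neg_smul, one_smul, AbsoluteValue.map_neg, map_prod]
    rw [h1]
    calc ∏ i, v (M (σ i) i) ≤ ∏ _i : Fin r, b :=
          Finset.prod_le_prod (fun i _ => v.nonneg _) (fun i _ => hb _ _)
      _ = b ^ r := by rw [Finset.prod_const, Finset.card_univ, Fintype.card_fin]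

end Pool.Agent.THS.H60
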