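import Pool.Agent.THS.StmtsT

/-!
# Row TOU of the squad THS (output of block T)
-/

set_option autoImplicit false

namespace Pool.Agent.THS.H60

/-- **Row TOU** -/
theorem tou (rre : RreStatement) (inv : InvStatement) (tcp : TcpStatement) (tcn : TcnStatement)
    (kla : KlaStatement) : TouStatement := by
  intro g τ hτ
  exact ⟨rre g τ hτ, inv g τ hτ, fun c x => (tcp g τ hτ c x).1,
    fun c x p q => (tcp g τ hτ c x).2 p q, tcn g τ hτ, kla g τ hτ⟩

end Pool.Agent.THS.H60
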